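import Pool.Agent.H37.CNU.Stmts

/-!
# Row UNG of the board `cnu`: the group of the cover is `SU_3(q)`
-/

set_option autoImplicit false

namespace Pool.CND

open Finset Matrix Polynomial

namespace UNGaux

theorem indep3 {R : Type} [CommRing R] (x y z a : Fin 3 → R)
    (hdet : x 0 * y 1 * z 2 - x 1 * y 0 * z 2 + x 1 * y 2 * z 0 - x 2 * y 1 * z 0 + x 2 * y 0 * z 1 -
      x 0 * y 2 * z 1 = 1)
    (hx : a 0 * x 0 + a 1 * x 1 + a 2 * x 2 = 0) (hy : a 0 * y 0 + a 1 * y 1 + a 2 * y 2 = 0)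
    (hz : a 0 * z 0 + a 1 * z 1 + a 2 * z 2 = 0) : ∀ i, a i = 0 := by
  have h0 : a 0 = 0 := by
    linear_combination (y 1 * z 2 - y 2 * z 1) * hx - (x 1 * z 2 - x 2 * z 1) * hy +
      (x 1 * y 2 - x 2 * y 1) * hz - a 0 * hdet
  have h1 : a 1 = 0 := by
    linear_combination -(y 0 * z 2 - y 2 * z 0) * hx + (x 0 * z 2 - x 2 * z 0) * hy -
      (x 0 * y 2 - x 2 * y 0) * hz - a 1 * hdet
  have h2 : a 2 = 0 := by
    linear_combination (y 0 * z 1 - y 1 * z 0) * hx - (x 0 * z 1 - x 1 * z 0) * hy +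
      (x 0 * y 1 - x 1 * y 0) * hz - a 2 * hdet
  intro i
  fin_cases i
  · exact h0
  · exact h1
  · exact h2

theorem mul_J3 {F : Type} [Field F] (σ : F →+* F) (A : Matrix (Fin 3) (Fin 3) F) (i j : Fin 3) :
    (A * J3 F * (A.map σ)ᵀ) i j =
      A i 0 * σ (A j 2) - A i 1 * σ (A j 1) + A i 2 * σ (A j 0) := by
  simp only [J3, Matrix.mul_apply, Fin.sum_univ_three, Matrix.transpose_apply, Matrix.map_apply,
    Matrix.of_apply, Matrix.cons_val', Matrix.cons_val_zero, Matrix.cons_val_one,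
    Matrix.cons_val_two, Matrix.head_cons, Matrix.tail_cons, Matrix.empty_val',
    Matrix.cons_val_fin_one, Matrix.head_fin_const]
  ring

end UNGaux

theorem ung_thm (hUNC : S_UNC) : S_UNG := by
  intro p k F L _ _ _ _ _ f q s t X hp hchar hf hq hcard hs hR htop hfr
  classical
  have : Fact p.Prime := ⟨hp⟩
  have hq2 : 2 ≤ q := by rw [hq]; exact le_trans hp.two_le (Nat.le_self_pow (by omega) p)
  have hq0 : 0 < q := by omega
  have : Finite F := Nat.finite_of_card_ne_zero (by rw [hcard]; positivity)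
  have : Fintype F := Fintype.ofFinite F
  have hqc : Fintype.card F = q ^ 2 := by rw [← hcard, Nat.card_eq_fintype_card]
  have : CharP L p := charP_of_injective_algebraMap (algebraMap k L).injective p
  set K := IntermediateField.adjoin k {t} with hK
  have : CharP K p := charP_of_injective_algebraMap (algebraMap k K).injective p
  have hq4 : 4 ≤ q ^ 2 := by nlinarith
  have hpos : 0 < q ^ 3 * ((q ^ 2 - 1) * (q ^ 3 + 1)) :=
    Nat.mul_pos (by positivity) (Nat.mul_pos (by omega) (by omega))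
  have : FiniteDimensional K L := Module.finite_of_finrank_pos (by rw [hfr]; exact hpos)
  let c : F →+* L := (algebraMap k L).comp (algebraMap F k)
  have hcinj : Function.Injective c := c.injective
  have hcq : ∀ a : F, c a ^ q = c (s a) := fun a => by
    rw [← map_pow, hs]
  have hcq2 : ∀ a : F, c a ^ (q ^ 2) = c a := fun a => by
    rw [← map_pow, ← hqc, FiniteField.pow_card]
  have hcq3 : ∀ a : F, c a ^ (q ^ 3) = c (s a) := fun a => by
    rw [show q ^ 3 = q ^ 2 * q by ring, pow_mul, hcq2, hcq]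
  have hcq4 : ∀ a : F, c a ^ (q ^ 4) = c a := fun a => by
    rw [show q ^ 4 = q ^ 2 * q ^ 2 by ring, pow_mul, hcq2, hcq2]
  have hcq5 : ∀ a : F, c a ^ (q ^ 5) = c (s a) := fun a => by
    rw [show q ^ 5 = q ^ 4 * q by ring, pow_mul, hcq4, hcq]
  have hcq6 : ∀ a : F, c a ^ (q ^ 6) = c a := fun a => by
    rw [show q ^ 6 = q ^ 4 * q ^ 2 by ring, pow_mul, hcq4, hcq2]
  have hadd : ∀ (j : ℕ) (u v : L), (u + v) ^ (q ^ j) = u ^ (q ^ j) + v ^ (q ^ j) := by
    intro j u v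
    rw [hq, ← pow_mul]
    exact add_pow_char_pow (p := p) (n := f * j) u v
  -- the determinant
  have hdet0 : X 0 * X 1 ^ (q ^ 2) * X 2 ^ (q ^ 4) - X 1 * X 0 ^ (q ^ 2) * X 2 ^ (q ^ 4) +
      X 1 * X 2 ^ (q ^ 2) * X 0 ^ (q ^ 4) - X 2 * X 1 ^ (q ^ 2) * X 0 ^ (q ^ 4) +
      X 2 * X 0 ^ (q ^ 2) * X 1 ^ (q ^ 4) - X 0 * X 2 ^ (q ^ 2) * X 1 ^ (q ^ 4) = 1 := by
    have h1 : (X 0 * X 2 ^ (q ^ 3) + X 2 * X 0 ^ (q ^ 3) - X 1 ^ (q ^ 3 + 1)) ^ q = 1 := by
      rw [hR.h3, one_pow]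
    have h2 : X 0 ^ q * X 2 ^ (q ^ 4) + X 2 ^ q * X 0 ^ (q ^ 4) =
        1 + X 1 ^ q * X 1 ^ (q ^ 4) := by
      have h3 : X 0 * X 2 ^ (q ^ 3) + X 2 * X 0 ^ (q ^ 3) = 1 + X 1 * X 1 ^ (q ^ 3) := by
        have := hR.h3
        rw [pow_succ] at this
        linear_combination this
      have h4 := congrArg (fun w : L => w ^ q) h3
      have ha := hadd 1
      simp only [pow_one] at ha
      simp only [ha, mul_pow, ← pow_mul, one_pow] at h4
      rw [show q ^ 4 = q ^ 3 * q by ring]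
      exact h4
    linear_combination X 2 ^ (q ^ 4) * hR.c01 + X 0 ^ (q ^ 4) * hR.c12 + X 1 ^ (q ^ 4) * hR.c20 + h2
  have hlin : ∀ a : Fin 3 → F, c (a 0) * X 0 + c (a 1) * X 1 + c (a 2) * X 2 = 0 → a = 0 := by
    intro a h
    have h2 : c (a 0) * X 0 ^ (q ^ 2) + c (a 1) * X 1 ^ (q ^ 2) + c (a 2) * X 2 ^ (q ^ 2) = 0 := by
      have h3 := congrArg (fun w : L => w ^ (q ^ 2)) h
      simp only [hadd, mul_pow, hcq2] at h3
      rwa [zero_pow (by positivity)] at h3
    have h4 : c (a 0) * X 0 ^ (q ^ 4) + c (a 1) * X 1 ^ (q ^ 4) + c (a 2) * X 2 ^ (q ^ 4) = 0 := by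
      have h3 := congrArg (fun w : L => w ^ (q ^ 4)) h
      simp only [hadd, mul_pow, hcq4] at h3
      rwa [zero_pow (by positivity)] at h3
    have h5 := UNGaux.indep3 X (fun i => X i ^ (q ^ 2)) (fun i => X i ^ (q ^ 4)) (fun i => c (a i))
      hdet0 h h2 h4
    funext i
    exact hcinj (by rw [h5 i]; simp)
  let φ : (Fin 3 → F) → L := fun w => c (w 0) * X 0 + c (w 1) * X 1 + c (w 2) * X 2
  have hφ : ∀ w, φ w = c (w 0) * X 0 + c (w 1) * X 1 + c (w 2) * X 2 := fun w => rfl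
  have hφinj : Function.Injective φ := by
    intro a b h
    have h1 : c ((a - b) 0) * X 0 + c ((a - b) 1) * X 1 + c ((a - b) 2) * X 2 = 0 := by
      rw [hφ, hφ] at h
      simp only [Pi.sub_apply, map_sub]
      linear_combination h
    have h2 := hlin _ h1
    exact sub_eq_zero.1 h2
  let tK : K := IntermediateField.AdjoinSimple.gen k t
  have htK : algebraMap K L tK = t := rfl
  let P : K[X] := Polynomial.X ^ (q ^ 6) + (C tK * Polynomial.X ^ (q ^ 2) -
    C (tK ^ q) * Polynomial.X ^ (q ^ 4) - Polynomial.X)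
  have hPev : ∀ z : L, aeval z P = z ^ (q ^ 6) + (t * z ^ (q ^ 2) - t ^ q * z ^ (q ^ 4) - z) := by
    intro z
    simp only [P, map_add, map_sub, map_mul, map_pow, aeval_X, aeval_C, htK]
  have h26 : q ^ 2 < q ^ 6 := Nat.pow_lt_pow_right (by omega) (by omega)
  have h46 : q ^ 4 < q ^ 6 := Nat.pow_lt_pow_right (by omega) (by omega)
  have h06 : 1 < q ^ 6 := by omega
  have hdeg1 : (C tK * Polynomial.X ^ (q ^ 2) -
      C (tK ^ q) * Polynomial.X ^ (q ^ 4) - Polynomial.X : K[X]).natDegree < q ^ 6 := by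
    refine lt_of_le_of_lt (natDegree_sub_le _ _) (max_lt ?_ ?_)
    · refine lt_of_le_of_lt (natDegree_sub_le _ _) (max_lt ?_ ?_)
      · exact lt_of_le_of_lt (natDegree_C_mul_X_pow_le _ _) h26
      · exact lt_of_le_of_lt (natDegree_C_mul_X_pow_le _ _) h46
    · rw [natDegree_X]; exact h06
  have hPdeg : P.natDegree = q ^ 6 := by
    have h1 : (Polynomial.X ^ (q ^ 6) : K[X]).natDegree = q ^ 6 := natDegree_X_pow _
    rw [natDegree_add_eq_left_of_natDegree_lt (by rw [h1]; exact hdeg1), h1]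
  have hP0 : P ≠ 0 := by
    intro h
    rw [h, natDegree_zero] at hPdeg
    omega
  have hqK : (q : K) = 0 := by
    rw [hq, Nat.cast_pow, CharP.cast_eq_zero, zero_pow (by omega)]
  have hPsep : P.Separable := by
    have h1 : derivative P = -1 := by
      simp only [P, derivative_add, derivative_sub, derivative_X_pow, derivative_X,
        derivative_C_mul, Nat.cast_pow, hqK]
      simp
    rw [separable_def, h1]
    exact isCoprime_one_right.neg_right
  have hφj2 : ∀ w, φ w ^ (q ^ 2) = c (w 0) * X 0 ^ (q ^ 2) + c (w 1) * X 1 ^ (q ^ 2) +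
      c (w 2) * X 2 ^ (q ^ 2) := by
    intro w
    rw [hφ]
    simp only [hadd, mul_pow, hcq2]
  have hφj4 : ∀ w, φ w ^ (q ^ 4) = c (w 0) * X 0 ^ (q ^ 4) + c (w 1) * X 1 ^ (q ^ 4) +
      c (w 2) * X 2 ^ (q ^ 4) := by
    intro w
    rw [hφ]
    simp only [hadd, mul_pow, hcq4]
  have hφj6 : ∀ w, φ w ^ (q ^ 6) = c (w 0) * X 0 ^ (q ^ 6) + c (w 1) * X 1 ^ (q ^ 6) +
      c (w 2) * X 2 ^ (q ^ 6) := by
    intro w
    rw [hφ]
    simp only [hadd, mul_pow, hcq6]
  have hφj1 : ∀ w, φ w ^ q = c (s (w 0)) * X 0 ^ q + c (s (w 1)) * X 1 ^ q +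
      c (s (w 2)) * X 2 ^ q := by
    intro w
    have ha := hadd 1
    simp only [pow_one] at ha
    rw [hφ]
    simp only [ha, mul_pow, hcq]
  have hφj3 : ∀ w, φ w ^ (q ^ 3) = c (s (w 0)) * X 0 ^ (q ^ 3) + c (s (w 1)) * X 1 ^ (q ^ 3) +
      c (s (w 2)) * X 2 ^ (q ^ 3) := by
    intro w
    rw [hφ]
    simp only [hadd, mul_pow, hcq3]
  have hφj5 : ∀ w, φ w ^ (q ^ 5) = c (s (w 0)) * X 0 ^ (q ^ 5) + c (s (w 1)) * X 1 ^ (q ^ 5) +
      c (s (w 2)) * X 2 ^ (q ^ 5) := by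
    intro w
    rw [hφ]
    simp only [hadd, mul_pow, hcq5]
  have hφroot : ∀ z, aeval (φ z) P = 0 := by
    intro w
    rw [hPev, hφj2, hφj4, hφj6, hφ]
    linear_combination c (w 0) * hR.rel 0 + c (w 1) * hR.rel 1 + c (w 2) * hR.rel 2
  have hmem : ∀ z : L, z ∈ (P.aroots L).toFinset ↔ aeval z P = 0 := by
    intro z
    rw [Multiset.mem_toFinset, mem_aroots]
    exact ⟨fun h => h.2, fun h => ⟨hP0, h⟩⟩
  have hsub : Finset.univ.image φ ⊆ (P.aroots L).toFinset := by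
    intro z hz
    obtain ⟨w, _, rfl⟩ := Finset.mem_image.1 hz
    exact (hmem _).2 (hφroot w)
  have hcardim : (Finset.univ.image φ).card = q ^ 6 := by
    rw [Finset.card_image_of_injective _ hφinj, Finset.card_univ, Fintype.card_fun, hqc,
      Fintype.card_fin, ← pow_mul]
  have hle : (P.aroots L).toFinset.card ≤ Multiset.card (P.aroots L) :=
    Multiset.toFinset_card_le _
  have hle2 : Multiset.card (P.aroots L) ≤ q ^ 6 := by
    refine le_trans (card_roots' _) ?_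
    rw [natDegree_map, hPdeg]
  have hle3 := Finset.card_le_card hsub
  rw [hcardim] at hle3
  have heq : Finset.univ.image φ = (P.aroots L).toFinset :=
    Finset.eq_of_subset_of_card_le hsub (by rw [hcardim]; omega)
  have hsplit : (P.map (algebraMap K L)).Splits := by
    rw [splits_iff_card_roots, natDegree_map, hPdeg]
    exact le_antisymm hle2 (le_trans hle3 hle)
  have hφX : ∀ i, φ (Pi.single i 1) = X i := by
    intro i
    rw [hφ]
    fin_cases i
    · simp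
    · simp
    · simp
  have hX0 : ∀ i, aeval (X i) P = 0 := by
    intro i
    rw [← hφX]; exact hφroot _
  have hXm : ∀ i, X i ∈ P.rootSet L := fun i => (mem_rootSet_of_ne hP0).2 (hX0 i)
  have htop2 : ∀ E : IntermediateField K L, (∀ i, X i ∈ E) → E = ⊤ := by
    intro E hE
    have h2 : (⊤ : IntermediateField k L) ≤ E.restrictScalars k := by
      rw [← htop, IntermediateField.adjoin_le_iff]
      rintro z (rfl | ⟨i, rfl⟩)
      · exact E.algebraMap_mem tK
      · exact hE i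
    rw [eq_top_iff]
    intro z _
    exact h2 (IntermediateField.mem_top)
  have hadj : Algebra.adjoin K (P.rootSet L : Set L) = ⊤ := by
    have h1 : IntermediateField.adjoin K (P.rootSet L) = ⊤ :=
      htop2 _ (fun i => IntermediateField.subset_adjoin K _ (hXm i))
    have h2 := IntermediateField.adjoin_toSubalgebra_of_isAlgebraic (F := K) (E := L)
      (S := P.rootSet L) (fun z _ => Algebra.IsAlgebraic.isAlgebraic z)
    rw [← h2, h1, IntermediateField.top_toSubalgebra]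
  have : P.IsSplittingField K L := ⟨hsplit, hadj⟩
  have hgal : IsGalois K L := IsGalois.of_separable_splitting_field hPsep
  have hroot : ∀ (τ : L ≃ₐ[K] L) (i : Fin 3), ∃ w : Fin 3 → F, φ w = τ (X i) := by
    intro τ i
    have h1 : aeval (τ (X i)) P = 0 := by
      have h3 := aeval_algHom_apply (τ : L →ₐ[K] L) (X i) P
      rw [hX0, map_zero] at h3
      exact h3
    have h2 : τ (X i) ∈ (P.aroots L).toFinset := (hmem _).2 h1
    rw [← heq] at h2
    obtain ⟨w, _, hw⟩ := Finset.mem_image.1 h2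
    exact ⟨w, hw⟩
  choose u hu using hroot
  have hcσ : ∀ (τ : L ≃ₐ[K] L) (a : F), τ (c a) = c a := by
    intro τ a
    exact (τ.restrictScalars k).commutes (algebraMap F k a)
  have htσ : ∀ (τ : L ≃ₐ[K] L), τ t = t := fun τ => τ.commutes tK
  -- the matrix
  let A : (L ≃ₐ[K] L) → Matrix (Fin 3) (Fin 3) F := fun τ => Matrix.of fun j i => u τ i j
  have hA : ∀ τ j i, A τ j i = u τ i j := fun τ j i => rfl
  have hdet : ∀ τ, (A τ).det = 1 := by
    intro τ
    apply hcinj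
    have h1 := congrArg τ hdet0
    simp only [map_add, map_sub, map_mul, map_pow, ← hu, map_one] at h1
    simp only [hφj2, hφj4] at h1
    simp only [hφ] at h1
    rw [Matrix.det_fin_three]
    simp only [hA, map_add, map_sub, map_mul, map_one]
    generalize c (u τ 0 0) = a00 at *
    generalize c (u τ 0 1) = a01 at *
    generalize c (u τ 0 2) = a02 at *
    generalize c (u τ 1 0) = a10 at *
    generalize c (u τ 1 1) = a11 at *
    generalize c (u τ 1 2) = a12 at *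
    generalize c (u τ 2 0) = a20 at *
    generalize c (u τ 2 1) = a21 at *
    generalize c (u τ 2 2) = a22 at *
    linear_combination h1 - (a00 * a11 * a22 - a00 * a12 * a21 - a01 * a10 * a22 +
      a01 * a12 * a20 + a02 * a10 * a21 - a02 * a11 * a20) * hdet0
  have hdet1 : X 0 ^ q * X 1 ^ (q ^ 3) * X 2 ^ (q ^ 5) - X 1 ^ q * X 0 ^ (q ^ 3) * X 2 ^ (q ^ 5) +
      X 1 ^ q * X 2 ^ (q ^ 3) * X 0 ^ (q ^ 5) - X 2 ^ q * X 1 ^ (q ^ 3) * X 0 ^ (q ^ 5) +
      X 2 ^ q * X 0 ^ (q ^ 3) * X 1 ^ (q ^ 5) - X 0 ^ q * X 2 ^ (q ^ 3) * X 1 ^ (q ^ 5) = 1 := by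
    have h3 : X 0 * X 1 ^ (q ^ 2) * X 2 ^ (q ^ 4) + X 1 * X 2 ^ (q ^ 2) * X 0 ^ (q ^ 4) +
        X 2 * X 0 ^ (q ^ 2) * X 1 ^ (q ^ 4) = 1 + X 1 * X 0 ^ (q ^ 2) * X 2 ^ (q ^ 4) +
        X 2 * X 1 ^ (q ^ 2) * X 0 ^ (q ^ 4) + X 0 * X 2 ^ (q ^ 2) * X 1 ^ (q ^ 4) := by
      linear_combination hdet0
    have h4 := congrArg (fun w : L => w ^ q) h3
    have ha := hadd 1
    simp only [pow_one] at ha
    simp only [ha, mul_pow, ← pow_mul, one_pow] at h4
    rw [← pow_succ, ← pow_succ] at h4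
    linear_combination h4
  have hform : ∀ τ, A τ * J3 F * ((A τ).map s)ᵀ = J3 F := by
    intro τ
    -- `D = A J σ(A)ᵀ - J`
    let D : Fin 3 → Fin 3 → F := fun i j => A τ i 0 * s (A τ j 2) - A τ i 1 * s (A τ j 1) +
      A τ i 2 * s (A τ j 0) - J3 F i j
    have hD : ∀ i j, D i j = A τ i 0 * s (A τ j 2) - A τ i 1 * s (A τ j 1) +
      A τ i 2 * s (A τ j 0) - J3 F i j := fun i j => rfl
    have hJ : (J3 F 0 0 = 0 ∧ J3 F 0 1 = 0 ∧ J3 F 0 2 = 1) ∧
        (J3 F 1 0 = 0 ∧ J3 F 1 1 = -1 ∧ J3 F 1 2 = 0) ∧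
        (J3 F 2 0 = 1 ∧ J3 F 2 1 = 0 ∧ J3 F 2 2 = 0) := by
      refine ⟨⟨?_, ?_, ?_⟩, ⟨?_, ?_, ?_⟩, ⟨?_, ?_, ?_⟩⟩ <;> simp [J3]
    obtain ⟨⟨j00, j01, j02⟩, ⟨j10, j11, j12⟩, ⟨j20, j21, j22⟩⟩ := hJ
    let v : Fin 3 → L := fun j => c (D 0 j) * X 0 + c (D 1 j) * X 1 + c (D 2 j) * X 2
    have hv : ∀ j, v j = c (D 0 j) * X 0 + c (D 1 j) * X 1 + c (D 2 j) * X 2 := fun j => rfl
    -- orthogonality to a vector `Y` of the form `X ^ (odd)`
    have horth : ∀ (Y : Fin 3 → L) (r : L), (X 0 * Y 2 + X 2 * Y 0 - X 1 * Y 1 = r) →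
        ((c (u τ 0 0) * X 0 + c (u τ 0 1) * X 1 + c (u τ 0 2) * X 2) *
          (c (s (u τ 2 0)) * Y 0 + c (s (u τ 2 1)) * Y 1 + c (s (u τ 2 2)) * Y 2) +
        (c (u τ 2 0) * X 0 + c (u τ 2 1) * X 1 + c (u τ 2 2) * X 2) *
          (c (s (u τ 0 0)) * Y 0 + c (s (u τ 0 1)) * Y 1 + c (s (u τ 0 2)) * Y 2) -
        (c (u τ 1 0) * X 0 + c (u τ 1 1) * X 1 + c (u τ 1 2) * X 2) *
          (c (s (u τ 1 0)) * Y 0 + c (s (u τ 1 1)) * Y 1 + c (s (u τ 1 2)) * Y 2) = r) →
        v 0 * Y 0 + v 1 * Y 1 + v 2 * Y 2 = 0 := by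
      intro Y r h1 h2
      simp only [hv, hD, hA, map_sub, map_add, map_mul, j00, j01, j02, j10, j11, j12, j20, j21,
        j22, map_zero, map_one, map_neg]
      linear_combination h2 - h1
    have hv1 : v 0 * X 0 ^ q + v 1 * X 1 ^ q + v 2 * X 2 ^ q = 0 := by
      refine horth (fun i => X i ^ q) 0 ?_ ?_
      · have := hR.h1
        rw [pow_succ] at this
        linear_combination this
      · have h1 : X 0 * X 2 ^ q + X 2 * X 0 ^ q - X 1 * X 1 ^ q = 0 := by
          have := hR.h1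
          rw [pow_succ] at this
          linear_combination this
        have h2 := congrArg τ h1
        simp only [map_add, map_sub, map_mul, map_pow, ← hu, map_zero] at h2
        simp only [hφj1] at h2
        exact h2
    have hv3 : v 0 * X 0 ^ (q ^ 3) + v 1 * X 1 ^ (q ^ 3) + v 2 * X 2 ^ (q ^ 3) = 0 := by
      have h1 : X 0 * X 2 ^ (q ^ 3) + X 2 * X 0 ^ (q ^ 3) - X 1 * X 1 ^ (q ^ 3) = 1 := by
        have := hR.h3
        rw [pow_succ] at this
        linear_combination this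
      refine horth (fun i => X i ^ (q ^ 3)) 1 h1 ?_
      have h2 := congrArg τ h1
      simp only [map_add, map_sub, map_mul, map_pow, ← hu, map_one] at h2
      simp only [hφj3] at h2
      exact h2
    have hv5 : v 0 * X 0 ^ (q ^ 5) + v 1 * X 1 ^ (q ^ 5) + v 2 * X 2 ^ (q ^ 5) = 0 := by
      have h1 : X 0 * X 2 ^ (q ^ 5) + X 2 * X 0 ^ (q ^ 5) - X 1 * X 1 ^ (q ^ 5) = t := by
        have := hR.h5
        rw [pow_succ] at this
        linear_combination this
      refine horth (fun i => X i ^ (q ^ 5)) t h1 ?_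
      have h2 := congrArg τ h1
      simp only [map_add, map_sub, map_mul, map_pow, ← hu, htσ] at h2
      simp only [hφj5] at h2
      exact h2
    have hv0 : ∀ j, v j = 0 := UNGaux.indep3 (fun i => X i ^ q) (fun i => X i ^ (q ^ 3))
      (fun i => X i ^ (q ^ 5)) v hdet1 hv1 hv3 hv5
    have hD0 : ∀ i j, D i j = 0 := by
      intro i j
      have h1 := hlin (fun i => D i j) (by rw [← hv j]; exact hv0 j)
      exact congrFun h1 i
    ext i j
    rw [UNGaux.mul_J3]
    have h1 := hD0 i j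
    rw [hD, sub_eq_zero] at h1
    exact h1
  have hmul : ∀ τ τ' : L ≃ₐ[K] L, A (τ * τ') = A τ * A τ' := by
    intro τ τ'
    ext j i
    have h1 : u (τ * τ') i = fun j => (A τ * A τ') j i := by
      apply hφinj
      rw [hu, AlgEquiv.mul_apply, ← hu τ' i]
      rw [hφ (u τ' i)]
      simp only [map_add, map_mul, hcσ, ← hu τ]
      rw [hφ, hφ, hφ]
      change _ = c ((A τ * A τ') 0 i) * X 0 + c ((A τ * A τ') 1 i) * X 1 +
        c ((A τ * A τ') 2 i) * X 2
      simp only [Matrix.mul_apply, Fin.sum_univ_three, hA, map_add, map_mul]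
      ring
    rw [hA, h1]
  let Φ : (L ≃ₐ[K] L) →* SU3 s := MonoidHom.mk' (fun τ => ⟨⟨A τ, hdet τ⟩, hform τ⟩) (by
      intro τ τ'
      apply Subtype.ext
      apply Subtype.ext
      exact hmul τ τ')
  have hΦ : ∀ τ, (Φ τ).1.1 = A τ := fun τ => rfl
  have hΦinj : Function.Injective Φ := by
    intro τ τ' h
    have h1 : A τ = A τ' := by rw [← hΦ, ← hΦ, h]
    have hX : ∀ i, τ (X i) = τ' (X i) := by
      intro i
      rw [← hu, ← hu]
      congr 1
      funext j
      rw [← hA, ← hA, h1]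
    have h2 : (τ : L →ₐ[K] L) = (τ' : L →ₐ[K] L) := by
      refine AlgHom.ext_of_adjoin_eq_top hadj ?_
      intro z hz
      have h3 : z ∈ (P.aroots L).toFinset := (hmem z).2 ((mem_rootSet_of_ne hP0).1 hz)
      rw [← heq] at h3
      obtain ⟨w, _, hw⟩ := Finset.mem_image.1 h3
      change τ z = τ' z
      rw [← hw, hφ]
      simp only [map_add, map_mul, hcσ, hX]
    ext z
    exact congrArg (fun g : L →ₐ[K] L => g z) h2
  have hcardG : Nat.card (L ≃ₐ[K] L) = q ^ 3 * ((q ^ 2 - 1) * (q ^ 3 + 1)) := by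
    rw [← hfr]; exact IsGalois.card_aut_eq_finrank K L
  have hΦbij : Function.Bijective Φ := by
    have : Finite (Matrix.SpecialLinearGroup (Fin 3) F) := Subtype.finite
    have : Finite (SU3 s) := Subtype.finite
    have h1 := hUNC p F f q s hp hf hq hcard hs
    exact hΦinj.bijective_of_nat_card_le (by rw [hcardG]; exact h1)
  let e : (L ≃ₐ[K] L) ≃* SU3 s := MulEquiv.ofBijective Φ hΦbij
  let ρ : SU3 s →* (L ≃ₐ[k] L) := (AlgEquiv.restrictScalarsHom k).comp e.symm.toMonoidHom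
  have hρ : ∀ g z, ρ g z = e.symm g z := fun g z => rfl
  have hg : ∀ g : SU3 s, g.1.1 = A (e.symm g) := by
    intro g
    rw [← hΦ]
    exact congrArg (fun w : SU3 s => w.1.1) (e.apply_symm_apply g).symm
  refine ⟨ρ, ?_, ?_, ?_⟩
  · intro g
    rw [hρ]
    exact (e.symm g).commutes tK
  · intro g i
    rw [hρ, ← hu, hg g, Fin.sum_univ_three]
    rfl
  · intro z hz
    have h1 : z ∈ (⊥ : IntermediateField K L) := by
      rw [IsGalois.mem_bot_iff_fixed]
      intro τ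
      have h2 := hz (e τ)
      rw [hρ, e.symm_apply_apply] at h2
      exact h2
    obtain ⟨w, hw⟩ := IntermediateField.mem_bot.1 h1
    rw [← hw]
    exact w.2

end Pool.CND
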